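import Mathlib

/-!
# Two-colouring a countable family of open sets
-/

set_option autoImplicit false

namespace Pool.Agent.H916R3.Base

open Set TopologicalSpace Topology

universe u

variable {X : Type u}

/-- `𝒱` contains a local base at `y`. -/
def Loc [TopologicalSpace X] (𝒱 : Set (Set X)) (y : X) : Prop :=
  ∀ U, IsOpen U → y ∈ U → ∃ W ∈ 𝒱, y ∈ W ∧ W ⊆ U

theorem Loc.mono [TopologicalSpace X] {𝒱 𝒲 : Set (Set X)} {y : X} (h : Loc 𝒱 y) (hs : 𝒱 ⊆ 𝒲) :
    Loc 𝒲 y := by
  intro U hU hy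
  obtain ⟨W, hW, h1, h2⟩ := h U hU hy
  exact ⟨W, hs hW, h1, h2⟩

theorem exists_rec (F : ℕ → (ℕ → Bool) → Bool)
    (hF : ∀ n c c', (∀ k < n, c k = c' k) → F n c = F n c') :
    ∃ c : ℕ → Bool, ∀ n, c n = F n c := by
  classical
  let wf : WellFounded (fun a b : ℕ => a < b) := IsWellFounded.wf
  let G : ∀ n : ℕ, (∀ m, m < n → Bool) → Bool := fun n p =>
    F n (fun k => if hk : k < n then p k hk else false)
  refine ⟨wf.fix (C := fun _ => Bool) G, fun n => ?_⟩
  have h1 := wf.fix_eq (C := fun _ => Bool) G n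
  rw [h1]
  apply hF
  intro k hk
  simp [hk]

/-- Requirement number `r` at step `n` of the colouring `c`. -/
def Att (V : ℕ → Set X) (c : ℕ → Bool) (n r : ℕ) : Prop :=
  V n ⊆ V r.div2 ∧ ¬ V n ⊆ {x | ∃ k < n, c k = r.bodd ∧ V k ⊆ V r.div2 ∧ x ∈ V k}

theorem exists_colour (V : ℕ → Set X) :
    ∃ c : ℕ → Bool, ∀ n, c n = (sInf {r | Att V c n r}).bodd := by
  refine exists_rec (fun n c => (sInf {r | Att V c n r}).bodd) ?_
  intro n c c' h
  have : {r | Att V c n r} = {r | Att V c' n r} := by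
    ext r
    have h2 : {x | ∃ k < n, c k = r.bodd ∧ V k ⊆ V r.div2 ∧ x ∈ V k} =
        {x | ∃ k < n, c' k = r.bodd ∧ V k ⊆ V r.div2 ∧ x ∈ V k} := by
      ext x
      constructor
      · rintro ⟨k, hk, h3, h4⟩
        exact ⟨k, hk, by rw [← h k hk]; exact h3, h4⟩
      · rintro ⟨k, hk, h3, h4⟩
        exact ⟨k, hk, by rw [h k hk]; exact h3, h4⟩
    simp only [mem_ofPred_eq, Att]
    rw [h2]
  simp only [this]

theorem block [TopologicalSpace X] [T1Space X] (𝒱 : Set (Set X)) (hc : 𝒱.Countable)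
    (ho : ∀ V ∈ 𝒱, IsOpen V) :
    ∃ A : Set (Set X), A ⊆ 𝒱 ∧ ∀ y, ¬ IsOpen ({y} : Set X) → Loc 𝒱 y →
      Loc A y ∧ Loc (𝒱 \ A) y := by
  classical
  have hcc : Countable 𝒱 := hc
  obtain ⟨e, he⟩ := hcc.exists_injective_nat
  let V : ℕ → Set X := fun n => {x | ∃ W : 𝒱, e W = n ∧ x ∈ W.1}
  have hV : ∀ W : 𝒱, V (e W) = W.1 := by
    intro W
    ext x
    constructor
    · rintro ⟨W', h1, h2⟩
      rw [he h1] at h2
      exact h2
    · intro h
      exact ⟨W, rfl, h⟩
  have hV' : ∀ n x, x ∈ V n → ∃ W : 𝒱, e W = n ∧ V n = W.1 := by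
    rintro n x ⟨W, h1, h2⟩
    refine ⟨W, h1, ?_⟩
    rw [← h1, hV]
  have hVo : ∀ n x, x ∈ V n → IsOpen (V n) := by
    intro n x hx
    obtain ⟨W, h1, h2⟩ := hV' n x hx
    rw [h2]
    exact ho _ W.2
  obtain ⟨c, hcol⟩ := exists_colour V
  have main : ∀ y, ¬ IsOpen ({y} : Set X) → Loc 𝒱 y → ∀ r : ℕ, y ∈ V r.div2 →
      ∃ k, c k = r.bodd ∧ V k ⊆ V r.div2 ∧ y ∈ V k := by
    intro y hy hloc
    -- arbitrarily late small members
    have late : ∀ (N : ℕ) (U : Set X), IsOpen U → y ∈ U → ∃ n, N < n ∧ y ∈ V n ∧ V n ⊆ U := by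
      intro N U hU hyU
      have hz : ∀ k, ∃ z, y ∈ V k → z ∈ V k ∧ z ≠ y := by
        intro k
        by_cases h : y ∈ V k
        · by_contra hcon
          push Not at hcon
          apply hy
          have : V k = {y} := by
            ext x
            constructor
            · intro hx
              exact (hcon x).2 hx
            · intro hx
              rw [mem_singleton_iff.1 hx]; exact h
          rw [← this]
          exact hVo k y h
        · exact ⟨y, fun h' => absurd h' h⟩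
      choose z hz using hz
      let E : Set X := {x | x ≠ y ∧ x ∈ z '' Set.Iic N}
      have hE : E.Finite := ((Set.finite_Iic N).image z).subset fun x hx => hx.2
      obtain ⟨W, hW, h1, h2⟩ := hloc (U \ E) (hU.sdiff hE.isClosed) ⟨hyU, fun h => h.1 rfl⟩
      refine ⟨e ⟨W, hW⟩, ?_, ?_, ?_⟩
      · by_contra hle
        push Not at hle
        have h3 : y ∈ V (e ⟨W, hW⟩) := by rw [hV]; exact h1
        obtain ⟨h4, h5⟩ := hz _ h3
        rw [hV] at h4
        exact (h2 h4).2 ⟨h5, _, hle, rfl⟩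
      · rw [hV]; exact h1
      · rw [hV]; exact h2.trans sdiff_subset
    intro r
    induction r using Nat.strong_induction_on with
    | _ r ih =>
      intro hr
      have hk : ∀ r', ∃ k, r' < r → y ∈ V r'.div2 →
          c k = r'.bodd ∧ V k ⊆ V r'.div2 ∧ y ∈ V k := by
        intro r'
        by_cases h : r' < r ∧ y ∈ V r'.div2
        · obtain ⟨k, hk⟩ := ih r' h.1 h.2
          exact ⟨k, fun _ _ => hk⟩
        · exact ⟨0, fun h1 h2 => absurd ⟨h1, h2⟩ h⟩
      choose κ hκ using hk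
      let J : Set ℕ := {r' | r' < r ∧ y ∈ V r'.div2}
      have hJ : J.Finite := (Set.finite_Iio r).subset fun x hx => hx.1
      let U : Set X := V r.div2 ∩ ⋂ r' ∈ J, V (κ r')
      have hU : IsOpen U := by
        refine (hVo _ y hr).inter (hJ.isOpen_biInter ?_)
        intro r' hr'
        exact hVo _ y (hκ r' hr'.1 hr'.2).2.2
      have hyU : y ∈ U := ⟨hr, by
        simp only [mem_iInter]
        intro r' hr'
        exact (hκ r' hr'.1 hr'.2).2.2⟩
      obtain ⟨N, hN⟩ : ∃ N, ∀ r' ∈ J, κ r' ≤ N := by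
        obtain ⟨N, hN⟩ := (hJ.image κ).bddAbove
        exact ⟨N, fun r' hr' => hN ⟨r', hr', rfl⟩⟩
      obtain ⟨n, hn, hyn, hnU⟩ := late N U hU hyU
      by_cases hatt : Att V c n r
      · have hne : {r' | Att V c n r'}.Nonempty := ⟨r, hatt⟩
        have h0 : Att V c n (sInf {r' | Att V c n r'}) := Nat.sInf_mem hne
        have hle : sInf {r' | Att V c n r'} ≤ r := Nat.sInf_le hatt
        have heq : sInf {r' | Att V c n r'} = r := by
          by_contra hne'
          have hlt := lt_of_le_of_ne hle hne'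
          have hyr : y ∈ V (sInf {r' | Att V c n r'}).div2 := h0.1 hyn
          have hJm : sInf {r' | Att V c n r'} ∈ J := ⟨hlt, hyr⟩
          obtain ⟨h1, h2, h3⟩ := hκ _ hlt hyr
          apply h0.2
          intro x hx
          refine ⟨κ (sInf {r' | Att V c n r'}), (hN _ hJm).trans_lt hn, h1, h2, ?_⟩
          have := (hnU hx).2
          simp only [mem_iInter] at this
          exact this _ hJm
        refine ⟨n, ?_, hatt.1, hyn⟩
        rw [hcol n, heq]
      · have hsub : V n ⊆ V r.div2 := fun x hx => (hnU hx).1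
        have : V n ⊆ {x | ∃ k < n, c k = r.bodd ∧ V k ⊆ V r.div2 ∧ x ∈ V k} := by
          by_contra h
          exact hatt ⟨hsub, h⟩
        obtain ⟨k, _, h1, h2, h3⟩ := this hyn
        exact ⟨k, h1, h2, h3⟩
  refine ⟨{W | ∃ h : W ∈ 𝒱, c (e ⟨W, h⟩) = true}, fun W hW => hW.1, ?_⟩
  intro y hy hloc
  have key : ∀ (b : Bool) (U : Set X), IsOpen U → y ∈ U →
      ∃ W : 𝒱, c (e W) = b ∧ y ∈ W.1 ∧ W.1 ⊆ U := by
    intro b U hU hyU
    obtain ⟨W, hW, h1, h2⟩ := hloc U hU hyU
    have h3 : y ∈ V (Nat.bit b (e ⟨W, hW⟩)).div2 := by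
      rw [Nat.div2_bit, hV]; exact h1
    obtain ⟨k, h4, h5, h6⟩ := main y hy hloc _ h3
    obtain ⟨W', h7, h8⟩ := hV' k y h6
    rw [Nat.bodd_bit] at h4
    rw [Nat.div2_bit, hV] at h5
    refine ⟨W', by rw [h7]; exact h4, ?_, ?_⟩
    · rw [← h8]; exact h6
    · rw [← h8]; exact h5.trans h2
  constructor
  · intro U hU hyU
    obtain ⟨W, h1, h2, h3⟩ := key true U hU hyU
    exact ⟨W.1, ⟨W.2, h1⟩, h2, h3⟩
  · intro U hU hyU
    obtain ⟨W, h1, h2, h3⟩ := key false U hU hyU
    refine ⟨W.1, ⟨W.2, ?_⟩, h2, h3⟩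
    rintro ⟨h, h'⟩
    have : c (e W) = true := h'
    rw [h1] at this
    exact absurd this (by simp)

/-- Deleting at most one member of a family does not destroy local bases. -/
theorem Loc.sdiff [TopologicalSpace X] [T1Space X] {𝒱 : Set (Set X)} (ho : ∀ V ∈ 𝒱, IsOpen V)
    {F : Set (Set X)} (hF : F.Subsingleton) {y : X} (hy : ¬ IsOpen ({y} : Set X))
    (h : Loc 𝒱 y) : Loc (𝒱 \ F) y := by
  intro U hU hyU
  obtain ⟨W, hW, h1, h2⟩ := h U hU hyU
  by_cases hWF : W ∈ F
  · have hz : ∃ z ∈ W, z ≠ y := by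
      by_contra hcon
      push Not at hcon
      apply hy
      have : W = {y} := by
        ext x
        constructor
        · intro hx
          exact hcon x hx
        · intro hx
          rw [mem_singleton_iff.1 hx]; exact h1
      rw [← this]
      exact ho W hW
    obtain ⟨z, hz, hzy⟩ := hz
    obtain ⟨W', hW', h3, h4⟩ := h (U \ {z}) (hU.sdiff isClosed_singleton)
      ⟨hyU, fun h' => hzy (mem_singleton_iff.1 h').symm⟩
    refine ⟨W', ⟨hW', fun hF' => ?_⟩, h3, h4.trans sdiff_subset⟩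
    have : W' = W := hF hF' hWF
    rw [this] at h4
    exact (h4 hz).2 rfl
  · exact ⟨W, ⟨hW, hWF⟩, h1, h2⟩

end Pool.Agent.H916R3.Base
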