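import Mathlib
import Pool.Agent.H916R3.Base.Block

/-!
# Countable closed subfamilies of a base of a hereditarily separable space
-/

set_option autoImplicit false

namespace Pool.Agent.H916R3.Base

open Set TopologicalSpace Topology

universe u

variable {X : Type u}

/-- Members of the base between `y` and `V`. -/
def Btw (ℬ : Set (Set X)) (y : X) (V : Set X) : Set (Set X) := {W | W ∈ ℬ ∧ y ∈ W ∧ W ⊆ V}

/-- Points of `V` at which only countably many members of the base lie below `V`. -/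
def Gp (ℬ : Set (Set X)) (V : Set X) : Set X := {y | y ∈ V ∧ (Btw ℬ y V).Countable}

/-- The members of the base below `V` that meet `Gp ℬ V`. -/
def Vs (ℬ : Set (Set X)) (V : Set X) : Set (Set X) := {W | W ∈ ℬ ∧ W ⊆ V ∧ (W ∩ Gp ℬ V).Nonempty}

theorem Vs_countable [TopologicalSpace X]
    (hs : ∀ Y : Set X, ∃ D, D ⊆ Y ∧ D.Countable ∧ Y ⊆ closure D)
    {ℬ : Set (Set X)} (ho : ∀ V ∈ ℬ, IsOpen V) (V : Set X) : (Vs ℬ V).Countable := by
  obtain ⟨D, hD, hDc, hcl⟩ := hs (Gp ℬ V)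
  have hsub : Vs ℬ V ⊆ ⋃ d ∈ D, Btw ℬ d V := by
    rintro W ⟨hW, hWV, y, hyW, hyG⟩
    have := mem_closure_iff.1 (hcl hyG) W (ho W hW) hyW
    obtain ⟨d, hdW, hd⟩ := this
    simp only [mem_iUnion]
    exact ⟨d, hd, hW, hdW, hWV⟩
  exact (hDc.biUnion fun d hd => (hD hd).2).mono hsub

theorem exists_closed {T : Type*} (f : T → Set T) (hf : ∀ t, (f t).Countable) (A : Set T)
    (hA : A.Countable) : ∃ B : Set T, A ⊆ B ∧ B.Countable ∧ ∀ t ∈ B, f t ⊆ B ∧ True := by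
  let g : ℕ → Set T := fun n => Nat.rec A (fun _ s => s ∪ ⋃ t ∈ s, f t) n
  have h0 : g 0 = A := rfl
  have hsucc : ∀ n, g (n + 1) = g n ∪ ⋃ t ∈ g n, f t := fun n => rfl
  have hc : ∀ n, (g n).Countable := by
    intro n
    induction n with
    | zero => rw [h0]; exact hA
    | succ n ih =>
      rw [hsucc]
      exact ih.union (ih.biUnion fun t _ => hf t)
  refine ⟨⋃ n, g n, ?_, countable_iUnion hc, ?_⟩
  · exact (subset_iUnion g 0)
  · intro t ht
    obtain ⟨n, hn⟩ := mem_iUnion.1 ht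
    refine ⟨fun s hs => mem_iUnion.2 ⟨n + 1, ?_⟩, trivial⟩
    rw [hsucc]
    right
    simp only [mem_iUnion]
    exact ⟨t, hn, hs⟩

/-- For countable `T` the remaining part of the base has a countable subfamily that contains a
local base at each point of uncountable order at which `T` contains a local base. -/
theorem exists_rest [TopologicalSpace X] (ℬ : Set (Set X)) (hb : ∀ V ∈ ℬ, IsOpen V)
    (T : Set (Set X)) (hT : T.Countable) :
    ∃ R : Set (Set X), R.Countable ∧ R ⊆ ℬ \ T ∧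
      ∀ y, (∀ V, IsOpen V → y ∈ V → ¬ (Btw ℬ y V).Countable) → (∀ V ∈ T, IsOpen V) →
        Loc T y → Loc R y := by
  classical
  let Q : Set X × Set X → Set X → Prop := fun p W => W ∈ ℬ \ T ∧ p.1 ⊆ W ∧ W ⊆ p.2
  have hch : ∀ p : Set X × Set X, ∃ W, (∃ W', Q p W') → Q p W := by
    intro p
    by_cases h : ∃ W', Q p W'
    · obtain ⟨W, hW⟩ := h
      exact ⟨W, fun _ => hW⟩
    · exact ⟨∅, fun h' => absurd h' h⟩
  choose g hg using hch
  let P : Set (Set X × Set X) := {p | p ∈ T ×ˢ T ∧ ∃ W', Q p W'}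
  refine ⟨g '' P, ?_, ?_, ?_⟩
  · exact ((hT.prod hT).mono fun p hp => hp.1).image g
  · rintro W ⟨p, hp, rfl⟩
    exact (hg p hp.2).1
  · intro y hy hTo hloc O hO hyO
    obtain ⟨V, hV, hyV, hVO⟩ := hloc O hO hyO
    have h1 : ¬ (Btw ℬ y V ⊆ T) := fun h => hy V (hTo V hV) hyV (hT.mono h)
    rw [Set.not_subset] at h1
    obtain ⟨W, hW, hWT⟩ := h1
    have hWo : IsOpen W := hb W hW.1
    obtain ⟨U, hU, hyU, hUW⟩ := hloc W hWo hW.2.1
    have hex : ∃ W', Q (U, V) W' := ⟨W, ⟨hW.1, hWT⟩, hUW, hW.2.2⟩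
    have h2 := hg (U, V) hex
    exact ⟨g (U, V), ⟨(U, V), ⟨⟨hU, hV⟩, hex⟩, rfl⟩, h2.2.1 hyU, h2.2.2.trans hVO⟩

/-- Recursion along a well-order with countable initial segments. -/
theorem exists_seq' {I : Type*} [LinearOrder I] [WellFoundedLT I] {T : Type*}
    (P : I → Set T → T → Prop)
    (hc : ∀ a : I, (Set.Iio a).Countable)
    (h : ∀ (ξ : I) (C : Set T), C.Countable → ∃ a, P ξ C a) :
    ∃ g : I → T, ∀ ξ, P ξ (g '' Set.Iio ξ) (g ξ) := by
  classical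
  have hr : ∀ (ξ : I) (r : (η : I) → η < ξ → T),
      ∃ a, P ξ (Set.range fun η : Set.Iio ξ => r η.1 η.2) a := by
    intro ξ r
    have : Countable (Set.Iio ξ) := hc ξ
    exact h _ _ (Set.countable_range _)
  choose F hF using hr
  let wf : WellFounded (fun a b : I => a < b) := IsWellFounded.wf
  let g : I → T := wf.fix (C := fun _ => T) F
  refine ⟨g, fun ξ => ?_⟩
  have h1 : g ξ = F ξ (fun η _ => g η) := wf.fix_eq (C := fun _ => T) F ξ
  have h2 := hF ξ (fun η _ => g η)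
  rw [← h1] at h2
  have h3 : (Set.range fun η : Set.Iio ξ => g η.1) = g '' Set.Iio ξ := by
    ext t
    simp
  rw [h3] at h2
  exact h2

/-- The chain of countable closed subfamilies. -/
theorem exists_chain [TopologicalSpace X]
    (hs : ∀ Y : Set X, ∃ D, D ⊆ Y ∧ D.Countable ∧ Y ⊆ closure D)
    {ℬ : Set (Set X)} (ho : ∀ V ∈ ℬ, IsOpen V)
    {I : Type*} [LinearOrder I] [WellFoundedLT I] (hc : ∀ a : I, (Set.Iio a).Countable)
    (b : I → Set X) (hbI : ∀ ξ, b ξ ∈ ℬ) :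
    ∃ S : I → Set (Set X), ∀ ξ, (S ξ).Countable ∧ S ξ ⊆ ℬ ∧ b ξ ∈ S ξ ∧
      (∀ V ∈ S ξ, Vs ℬ V ⊆ S ξ) ∧
      ∀ y, (∀ V, IsOpen V → y ∈ V → ¬ (Btw ℬ y V).Countable) → Loc (⋃ η ∈ Set.Iio ξ, S η) y →
        Loc (S ξ \ ⋃ η ∈ Set.Iio ξ, S η) y := by
  classical
  let P : I → Set (Set (Set X)) → Set (Set X) → Prop := fun ξ C a =>
    (∀ s ∈ C, s.Countable ∧ s ⊆ ℬ) → (a.Countable ∧ a ⊆ ℬ ∧ b ξ ∈ a ∧
      (∀ V ∈ a, Vs ℬ V ⊆ a) ∧
      ∀ y, (∀ V, IsOpen V → y ∈ V → ¬ (Btw ℬ y V).Countable) → Loc (⋃₀ C) y →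
        Loc (a \ ⋃₀ C) y)
  have hP : ∀ (ξ : I) (C : Set (Set (Set X))), C.Countable → ∃ a, P ξ C a := by
    intro ξ C hC
    by_cases hCs : ∀ s ∈ C, s.Countable ∧ s ⊆ ℬ
    · have hTc : (⋃₀ C).Countable := hC.sUnion fun s hs' => (hCs s hs').1
      have hTb : ⋃₀ C ⊆ ℬ := sUnion_subset fun s hs' => (hCs s hs').2
      obtain ⟨R, hRc, hRb, hR⟩ := exists_rest ℬ ho (⋃₀ C) hTc
      obtain ⟨B, hB1, hB2, hB3⟩ := exists_closed (Vs ℬ) (fun V => Vs_countable hs ho V)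
        (insert (b ξ) R) (hRc.insert _)
      refine ⟨B ∩ ℬ, fun _ => ⟨hB2.mono inter_subset_left, inter_subset_right, ?_, ?_, ?_⟩⟩
      · exact ⟨hB1 (mem_insert _ _), hbI ξ⟩
      · intro V hV W hW
        exact ⟨(hB3 V hV.1).1 hW, hW.1⟩
      · intro y hy hloc
        refine (hR y hy (fun V hV => ho V (hTb hV)) hloc).mono ?_
        intro W hW
        exact ⟨⟨hB1 (mem_insert_of_mem _ hW), (hRb hW).1⟩, (hRb hW).2⟩
    · exact ⟨∅, fun h => absurd h hCs⟩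
  obtain ⟨S, hS⟩ := exists_seq' P hc hP
  have hU : ∀ ξ, ⋃₀ (S '' Set.Iio ξ) = ⋃ η ∈ Set.Iio ξ, S η := fun ξ => sUnion_image _ _
  have hall : ∀ ξ, (S ξ).Countable ∧ S ξ ⊆ ℬ := by
    intro ξ
    induction ξ using WellFoundedLT.induction with
    | _ ξ ih =>
      have := hS ξ (by
        rintro s ⟨η, hη, rfl⟩
        exact ih η hη)
      exact ⟨this.1, this.2.1⟩
  refine ⟨S, fun ξ => ?_⟩
  have := hS ξ (by
    rintro s ⟨η, hη, rfl⟩
    exact hall η)
  rw [hU] at this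
  exact this

end Pool.Agent.H916R3.Base
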