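import Mathlib
import Pool.Agent.H916R3.Base.Chain

/-!
# Decomposing a base of size less than `ℵ_ω` into countable pieces
-/

set_option autoImplicit false

namespace Pool.Agent.H916R3.Base

open Set TopologicalSpace Topology Cardinal

universe u

theorem card_union {α : Type u} {κ : Cardinal.{u}} (hκ : ℵ₀ ≤ κ) {s t : Set α}
    (hs : #s ≤ κ) (ht : #t ≤ κ) : #(s ∪ t : Set α) ≤ κ :=
  (Cardinal.mk_union_le s t).trans (Cardinal.add_le_of_le hκ hs ht)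

theorem card_biUnion {α β : Type u} {κ : Cardinal.{u}} (hκ : ℵ₀ ≤ κ) {s : Set α}
    (hs : #s ≤ κ) (f : α → Set β) (hf : ∀ a ∈ s, #(f a) ≤ κ) :
    #(⋃ a ∈ s, f a : Set β) ≤ κ := by
  rw [biUnion_eq_iUnion]
  refine (Cardinal.mk_iUnion_le _).trans (Cardinal.mul_le_of_le hκ hs ?_)
  exact ciSup_le' fun a => hf a.1 a.2

theorem card_iUnion_nat {β : Type u} {κ : Cardinal.{u}} (hκ : ℵ₀ ≤ κ) (f : ℕ → Set β)
    (hf : ∀ n, #(f n) ≤ κ) : #(⋃ n, f n : Set β) ≤ κ := by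
  have h : (⋃ n, f n) = ⋃ n : ULift.{u} ℕ, f n.down := by
    ext x
    simp
  rw [h]
  refine (Cardinal.mk_iUnion_le _).trans (Cardinal.mul_le_of_le hκ ?_ ?_)
  · have : #(ULift.{u} ℕ) ≤ ℵ₀ := Cardinal.mk_le_aleph0
    exact this.trans hκ
  · exact ciSup_le' fun a => hf a.down

theorem card_mono {α : Type u} {κ : Cardinal.{u}} {s t : Set α} (h : s ⊆ t) (ht : #t ≤ κ) :
    #s ≤ κ := (Cardinal.mk_le_mk_of_subset h).trans ht

theorem card_countable {α : Type u} {κ : Cardinal.{u}} (hκ : ℵ₀ ≤ κ) {s : Set α}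
    (hs : s.Countable) : #s ≤ κ := (Cardinal.le_aleph0_iff_set_countable.2 hs).trans hκ

variable {X : Type u}

/-- Points of `V` at which at most `κ` members of the base lie below `V`. -/
def GpK (κ : Cardinal.{u}) (ℬ : Set (Set X)) (V : Set X) : Set X := {y | y ∈ V ∧ #(Btw ℬ y V) ≤ κ}

/-- The members of the base below `V` that meet `GpK κ ℬ V`. -/
def VsK (κ : Cardinal.{u}) (ℬ : Set (Set X)) (V : Set X) : Set (Set X) :=
  {W | W ∈ ℬ ∧ W ⊆ V ∧ (W ∩ GpK κ ℬ V).Nonempty}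

theorem VsK_card [TopologicalSpace X] {κ : Cardinal.{u}} (hκ : ℵ₀ ≤ κ)
    (hs : ∀ Y : Set X, ∃ D, D ⊆ Y ∧ D.Countable ∧ Y ⊆ closure D)
    {ℬ : Set (Set X)} (ho : ∀ V ∈ ℬ, IsOpen V) (V : Set X) : #(VsK κ ℬ V) ≤ κ := by
  obtain ⟨D, hD, hDc, hcl⟩ := hs (GpK κ ℬ V)
  have hsub : VsK κ ℬ V ⊆ ⋃ d ∈ D, Btw ℬ d V := by
    rintro W ⟨hW, hWV, y, hyW, hyG⟩
    have := mem_closure_iff.1 (hcl hyG) W (ho W hW) hyW
    obtain ⟨d, hdW, hd⟩ := this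
    simp only [mem_iUnion]
    exact ⟨d, hd, hW, hdW, hWV⟩
  exact card_mono hsub (card_biUnion hκ (card_countable hκ hDc) _ fun d hd => (hD hd).2)

theorem exists_closedK {κ : Cardinal.{u}} (hκ : ℵ₀ ≤ κ) {T : Type u} (f : T → Set T)
    (hf : ∀ t, #(f t) ≤ κ) (A : Set T) (hA : #A ≤ κ) :
    ∃ B : Set T, A ⊆ B ∧ #B ≤ κ ∧ ∀ t ∈ B, f t ⊆ B := by
  let g : ℕ → Set T := fun n => Nat.rec A (fun _ s => s ∪ ⋃ t ∈ s, f t) n
  have h0 : g 0 = A := rfl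
  have hsucc : ∀ n, g (n + 1) = g n ∪ ⋃ t ∈ g n, f t := fun n => rfl
  have hc : ∀ n, #(↥(g n)) ≤ κ := by
    intro n
    induction n with
    | zero => rw [h0]; exact hA
    | succ n ih =>
      rw [hsucc]
      exact card_union hκ ih (card_biUnion hκ ih _ fun t _ => hf t)
  refine ⟨⋃ n, g n, ?_, card_iUnion_nat hκ _ hc, ?_⟩
  · exact (subset_iUnion g 0)
  · intro t ht s hs
    obtain ⟨n, hn⟩ := mem_iUnion.1 ht
    refine mem_iUnion.2 ⟨n + 1, ?_⟩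
    rw [hsucc]
    right
    simp only [mem_iUnion]
    exact ⟨t, hn, hs⟩

theorem exists_restK [TopologicalSpace X] {κ : Cardinal.{u}} (hκ : ℵ₀ ≤ κ) (ℬ : Set (Set X))
    (hb : ∀ V ∈ ℬ, IsOpen V) (T : Set (Set X)) (hT : #T ≤ κ) :
    ∃ R : Set (Set X), #R ≤ κ ∧ R ⊆ ℬ \ T ∧
      ∀ y, (∀ V, IsOpen V → y ∈ V → ¬ #(Btw ℬ y V) ≤ κ) → (∀ V ∈ T, IsOpen V) →
        Loc T y → Loc R y := by
  classical
  let Q : Set X × Set X → Set X → Prop := fun p W => W ∈ ℬ \ T ∧ p.1 ⊆ W ∧ W ⊆ p.2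
  have hch : ∀ p : Set X × Set X, ∃ W, (∃ W', Q p W') → Q p W := by
    intro p
    by_cases h : ∃ W', Q p W'
    · obtain ⟨W, hW⟩ := h
      exact ⟨W, fun _ => hW⟩
    · exact ⟨∅, fun h' => absurd h' h⟩
  choose g hg using hch
  let P : Set (Set X × Set X) := {p | p ∈ T ×ˢ T ∧ ∃ W', Q p W'}
  have hP : #P ≤ κ := by
    refine card_mono (t := T ×ˢ T) (fun p hp => hp.1) ?_
    rw [Cardinal.mk_setProd]
    exact Cardinal.mul_le_of_le hκ (by simpa using hT) (by simpa using hT)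
  refine ⟨g '' P, Cardinal.mk_image_le.trans hP, ?_, ?_⟩
  · rintro W ⟨p, hp, rfl⟩
    exact (hg p hp.2).1
  · intro y hy hTo hloc O hO hyO
    obtain ⟨V, hV, hyV, hVO⟩ := hloc O hO hyO
    have h1 : ¬ (Btw ℬ y V ⊆ T) := fun h => hy V (hTo V hV) hyV (card_mono h hT)
    rw [Set.not_subset] at h1
    obtain ⟨W, hW, hWT⟩ := h1
    have hWo : IsOpen W := hb W hW.1
    obtain ⟨U, hU, hyU, hUW⟩ := hloc W hWo hW.2.1
    have hex : ∃ W', Q (U, V) W' := ⟨W, ⟨hW.1, hWT⟩, hUW, hW.2.2⟩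
    have h2 := hg (U, V) hex
    exact ⟨g (U, V), ⟨(U, V), ⟨⟨hU, hV⟩, hex⟩, rfl⟩, h2.2.1 hyU, h2.2.2.trans hVO⟩

/-- Recursion along a well-order with initial segments of size at most `κ`. -/
theorem exists_seqK {κ : Cardinal.{u}} {I : Type u} [LinearOrder I] [WellFoundedLT I] {T : Type u}
    (P : I → Set T → T → Prop)
    (hc : ∀ a : I, #(Set.Iio a) ≤ κ)
    (h : ∀ (ξ : I) (C : Set T), #C ≤ κ → ∃ a, P ξ C a) :
    ∃ g : I → T, ∀ ξ, P ξ (g '' Set.Iio ξ) (g ξ) := by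
  classical
  have hr : ∀ (ξ : I) (r : (η : I) → η < ξ → T),
      ∃ a, P ξ (Set.range fun η : Set.Iio ξ => r η.1 η.2) a := by
    intro ξ r
    exact h _ _ (Cardinal.mk_range_le.trans (hc ξ))
  choose F hF using hr
  let wf : WellFounded (fun a b : I => a < b) := IsWellFounded.wf
  let g : I → T := wf.fix (C := fun _ => T) F
  refine ⟨g, fun ξ => ?_⟩
  have h1 : g ξ = F ξ (fun η _ => g η) := wf.fix_eq (C := fun _ => T) F ξ
  have h2 := hF ξ (fun η _ => g η)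
  rw [← h1] at h2
  have h3 : (Set.range fun η : Set.Iio ξ => g η.1) = g '' Set.Iio ξ := by
    ext t
    simp
  rw [h3] at h2
  exact h2

/-- The chain of closed subfamilies of size at most `κ`. -/
theorem exists_chainK [TopologicalSpace X] {κ : Cardinal.{u}} (hκ : ℵ₀ ≤ κ)
    (hs : ∀ Y : Set X, ∃ D, D ⊆ Y ∧ D.Countable ∧ Y ⊆ closure D)
    {ℬ : Set (Set X)} (ho : ∀ V ∈ ℬ, IsOpen V)
    {I : Type u} [LinearOrder I] [WellFoundedLT I] (hc : ∀ a : I, #(Set.Iio a) ≤ κ)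
    (b : I → Set X) (hbI : ∀ ξ, b ξ ∈ ℬ) :
    ∃ S : I → Set (Set X), ∀ ξ, #(S ξ) ≤ κ ∧ S ξ ⊆ ℬ ∧ b ξ ∈ S ξ ∧
      (∀ V ∈ S ξ, VsK κ ℬ V ⊆ S ξ) ∧
      ∀ y, (∀ V, IsOpen V → y ∈ V → ¬ #(Btw ℬ y V) ≤ κ) → Loc (⋃ η ∈ Set.Iio ξ, S η) y →
        Loc (S ξ \ ⋃ η ∈ Set.Iio ξ, S η) y := by
  classical
  let P : I → Set (Set (Set X)) → Set (Set X) → Prop := fun ξ C a =>
    (∀ s ∈ C, #s ≤ κ ∧ s ⊆ ℬ) → (#a ≤ κ ∧ a ⊆ ℬ ∧ b ξ ∈ a ∧
      (∀ V ∈ a, VsK κ ℬ V ⊆ a) ∧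
      ∀ y, (∀ V, IsOpen V → y ∈ V → ¬ #(Btw ℬ y V) ≤ κ) → Loc (⋃₀ C) y →
        Loc (a \ ⋃₀ C) y)
  have hP : ∀ (ξ : I) (C : Set (Set (Set X))), #C ≤ κ → ∃ a, P ξ C a := by
    intro ξ C hC
    by_cases hCs : ∀ s ∈ C, #s ≤ κ ∧ s ⊆ ℬ
    · have hTc : #(⋃₀ C) ≤ κ := by
        rw [sUnion_eq_biUnion]
        exact card_biUnion hκ hC _ fun s hs' => (hCs s hs').1
      have hTb : ⋃₀ C ⊆ ℬ := sUnion_subset fun s hs' => (hCs s hs').2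
      obtain ⟨R, hRc, hRb, hR⟩ := exists_restK hκ ℬ ho (⋃₀ C) hTc
      obtain ⟨B, hB1, hB2, hB3⟩ := exists_closedK hκ (VsK κ ℬ) (fun V => VsK_card hκ hs ho V)
        (R ∪ {b ξ}) (card_union hκ hRc (card_countable hκ (countable_singleton _)))
      refine ⟨B ∩ ℬ, fun _ => ⟨card_mono inter_subset_left hB2, inter_subset_right, ?_, ?_, ?_⟩⟩
      · exact ⟨hB1 (Or.inr rfl), hbI ξ⟩
      · intro V hV W hW
        exact ⟨hB3 V hV.1 hW, hW.1⟩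
      · intro y hy hloc
        refine (hR y hy (fun V hV => ho V (hTb hV)) hloc).mono ?_
        intro W hW
        exact ⟨⟨hB1 (Or.inl hW), (hRb hW).1⟩, (hRb hW).2⟩
    · exact ⟨∅, fun h => absurd h hCs⟩
  obtain ⟨S, hS⟩ := exists_seqK P hc hP
  have hU : ∀ ξ, ⋃₀ (S '' Set.Iio ξ) = ⋃ η ∈ Set.Iio ξ, S η := fun ξ => sUnion_image _ _
  have hall : ∀ ξ, #(S ξ) ≤ κ ∧ S ξ ⊆ ℬ := by
    intro ξ
    induction ξ using WellFoundedLT.induction with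
    | _ ξ ih =>
      have := hS ξ (by
        rintro s ⟨η, hη, rfl⟩
        exact ih η hη)
      exact ⟨this.1, this.2.1⟩
  refine ⟨S, fun ξ => ?_⟩
  have := hS ξ (by
    rintro s ⟨η, hη, rfl⟩
    exact hall η)
  rw [hU] at this
  exact this

end Pool.Agent.H916R3.Base
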