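import Mathlib
import Pool.Agent.H916R3.Base.Card

/-!
# Selection of distinct pieces and the final colouring
-/

set_option autoImplicit false

namespace Pool.Agent.H916R3.Base

open Set TopologicalSpace Topology Cardinal

universe u

/-- Distinct representatives. -/
theorem select {R β : Type u} (f : R → Ordinal.{u}) (N : R → Set β)
    (h : ∀ r, #{r' | f r' ≤ f r} < #(N r)) :
    ∃ w : R → β, Function.Injective w ∧ ∀ r, w r ∈ N r := by
  classical
  let rel : R → R → Prop := InvImage (Prod.Lex (· < ·) (WellOrderingRel (α := R)))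
    (fun r => (f r, r))
  have wf : WellFounded rel :=
    InvImage.wf _ (WellFounded.prod_lex IsWellFounded.wf WellOrderingRel.isWellOrder.wf)
  have hle : ∀ r r', rel r' r → f r' ≤ f r := by
    intro r r' h'
    rcases (Prod.lex_def).1 h' with h1 | h1
    · exact le_of_lt h1
    · exact le_of_eq h1.1
  have htri : ∀ r r', r ≠ r' → rel r r' ∨ rel r' r := by
    intro r r' hne
    rcases lt_trichotomy (f r) (f r') with h1 | h1 | h1
    · exact Or.inl ((Prod.lex_def).2 (Or.inl h1))
    · rcases (trichotomous_of (WellOrderingRel (α := R)) r r') with h2 | h2 | h2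
      · exact Or.inl ((Prod.lex_def).2 (Or.inr ⟨h1, h2⟩))
      · exact absurd h2 hne
      · exact Or.inr ((Prod.lex_def).2 (Or.inr ⟨h1.symm, h2⟩))
    · exact Or.inr ((Prod.lex_def).2 (Or.inl h1))
  have hr : ∀ (r : R) (p : (r' : R) → rel r' r → β),
      ∃ b, b ∈ N r ∧ b ∉ Set.range (fun q : {r' // rel r' r} => p q.1 q.2) := by
    intro r p
    by_contra hcon
    push Not at hcon
    have h1 : N r ⊆ Set.range (fun q : {r' // rel r' r} => p q.1 q.2) := fun b hb => hcon b hb
    have h2 : #(N r) ≤ #{r' | f r' ≤ f r} := by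
      refine (Cardinal.mk_le_mk_of_subset h1).trans (Cardinal.mk_range_le.trans ?_)
      exact Cardinal.mk_le_mk_of_subset (s := {r' | rel r' r}) (t := {r' | f r' ≤ f r})
        fun r' hr' => hle r r' hr'
    exact absurd h2 (not_le.2 (h r))
  choose F hF1 hF2 using hr
  let g : R → β := wf.fix (C := fun _ => β) F
  have hg : ∀ r, g r = F r (fun r' _ => g r') := fun r => wf.fix_eq (C := fun _ => β) F r
  have hne : ∀ r r', rel r' r → g r' ≠ g r := by
    intro r r' h' heq
    have := hF2 r (fun r' _ => g r')
    rw [← hg r] at this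
    exact this ⟨⟨r', h'⟩, heq⟩
  refine ⟨g, ?_, ?_⟩
  · intro r r' heq
    by_contra hcon
    rcases htri r r' hcon with h1 | h1
    · exact hne _ _ h1 heq
    · exact hne _ _ h1 heq.symm
  · intro r
    rw [hg r]
    exact hF1 r _

end Pool.Agent.H916R3.Base
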