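import Mathlib
import Pool.Agent.H916R3.Base.Select

/-!
# Splitting a base that is decomposed into countable pieces
-/

set_option autoImplicit false

namespace Pool.Agent.H916R3.Base

open Set TopologicalSpace Topology Cardinal

universe u

theorem exists_rank {S : Type u} (μ : Cardinal.{u}) (hS : #S ≤ μ) :
    ∃ e : S → Ordinal.{u}, Function.Injective e ∧ ∀ s, e s < μ.ord := by
  have h1 : #S ≤ #μ.ord.ToType := by rw [Cardinal.mk_ord_toType]; exact hS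
  obtain ⟨g⟩ := h1
  refine ⟨fun s => Ordinal.typein (α := μ.ord.ToType) (· < ·) (g s), ?_, ?_⟩
  · intro a b hab
    exact g.injective (Ordinal.typein_injective _ hab)
  · intro s
    have := Ordinal.typein_lt_type (α := μ.ord.ToType) (· < ·) (g s)
    rwa [Ordinal.type_toType] at this

variable {X : Type u}

theorem combine [TopologicalSpace X] [T1Space X] (hiso : ∀ x : X, ¬ IsOpen ({x} : Set X))
    {ℬ : Set (Set X)} (ho : ∀ V ∈ ℬ, IsOpen V) (hloc : ∀ y, Loc ℬ y)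
    {β : Type u} (D : β → Set (Set X)) (hDc : ∀ ξ, (D ξ).Countable) (hDb : ∀ ξ, D ξ ⊆ ℬ)
    (hdisj : ∀ ξ η W, W ∈ D ξ → W ∈ D η → ξ = η) (hcover : ∀ W ∈ ℬ, ∃ ξ, W ∈ D ξ)
    (Z : Set X) (hZ : #Z ≤ Cardinal.aleph.{u} 1) (hZ1 : ∀ y ∉ Z, ∃ ξ, Loc (D ξ) y)
    (hZ2 : ∀ y ∈ Z, ∀ V, IsOpen V → y ∈ V → ¬ (Btw ℬ y V).Countable) :
    ∃ A, A ⊆ ℬ ∧ ∀ y, Loc A y ∧ Loc (ℬ \ A) y := by
  classical
  -- neighbourhoods of minimal order
  have hmin : ∀ y : X, ∃ V, IsOpen V ∧ y ∈ V ∧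
      ∀ V', IsOpen V' → y ∈ V' → #(Btw ℬ y V) ≤ #(Btw ℬ y V') := by
    intro y
    obtain ⟨c, ⟨V, hV, rfl⟩, hm⟩ := Cardinal.lt_wf.has_min
      ((fun V => #(Btw ℬ y V)) '' {V | IsOpen V ∧ y ∈ V}) ⟨_, univ, ⟨isOpen_univ, mem_univ y⟩, rfl⟩
    refine ⟨V, hV.1, hV.2, fun V' h1 h2 => ?_⟩
    exact not_lt.1 (hm _ ⟨V', ⟨h1, h2⟩, rfl⟩)
  choose V₀ hV₀o hV₀y hV₀min using hmin
  let κ : X → Cardinal.{u} := fun y => #(Btw ℬ y (V₀ y))
  have hκunc : ∀ y ∈ Z, ℵ₀ < κ y := by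
    intro y hy
    have := hZ2 y hy _ (hV₀o y) (hV₀y y)
    rw [← Cardinal.le_aleph0_iff_set_countable, not_le] at this
    exact this
  have hκ1 : ∀ y ∈ Z, Cardinal.aleph.{u} 1 ≤ κ y := by
    intro y hy
    rw [← Cardinal.succ_aleph0]
    exact Order.succ_le_of_lt (hκunc y hy)
  obtain ⟨ζ, hζinj, hζlt⟩ := exists_rank (S := Z) _ hZ
  have hSle : ∀ z : Z, #((Btw ℬ z.1 (V₀ z.1)) × ULift.{u} Bool) ≤ κ z.1 := by
    intro z
    rw [Cardinal.mk_prod, Cardinal.lift_id, Cardinal.lift_id]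
    refine Cardinal.mul_le_of_le (hκunc z.1 z.2).le (le_refl _) ?_
    have : #(ULift.{u} Bool) ≤ ℵ₀ := Cardinal.mk_le_aleph0
    exact this.trans (hκunc z.1 z.2).le
  choose e heinj helt using fun z : Z => exists_rank _ (hSle z)
  let R : Type u := Σ z : Z, (Btw ℬ z.1 (V₀ z.1)) × ULift.{u} Bool
  let f : R → Ordinal.{u} := fun r => max (ζ r.1) (e r.1 r.2)
  let N : R → Set β := fun r => {ξ | ∃ W ∈ D ξ, W ∈ Btw ℬ r.1.1 r.2.1.1}
  have hflt : ∀ r : R, f r < (κ r.1.1).ord := by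
    intro r
    refine max_lt ?_ (helt r.1 r.2)
    exact (hζlt r.1).trans_le (Cardinal.ord_le_ord.2 (hκ1 _ r.1.2))
  have hcount : ∀ r : R, #{r' | f r' ≤ f r} < κ r.1.1 := by
    intro r
    have hinf : ℵ₀ ≤ κ r.1.1 := (hκunc _ r.1.2).le
    have hlim : Order.succ (f r) < (κ r.1.1).ord :=
      (Cardinal.isSuccLimit_ord hinf).succ_lt (hflt r)
    have hc : (Order.succ (f r)).card < κ r.1.1 := Cardinal.lt_ord.1 hlim
    have hmem : ∀ r' : {r' | f r' ≤ f r}, ζ r'.1.1 < Order.succ (f r) ∧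
        e r'.1.1 r'.1.2 < Order.succ (f r) := by
      intro r'
      have h : f r'.1 ≤ f r := r'.2
      exact ⟨Order.lt_succ_of_le ((le_max_left _ _).trans h),
        Order.lt_succ_of_le ((le_max_right _ _).trans h)⟩
    have h1 : Cardinal.lift.{u + 1} #{r' | f r' ≤ f r} ≤
        Cardinal.lift.{u} #(Set.Iio (Order.succ (f r)) × Set.Iio (Order.succ (f r))) := by
      refine Cardinal.lift_mk_le_lift_mk_of_injective
        (f := fun r' : {r' | f r' ≤ f r} =>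
          ((⟨ζ r'.1.1, (hmem r').1⟩ : Set.Iio (Order.succ (f r))),
           (⟨e r'.1.1 r'.1.2, (hmem r').2⟩ : Set.Iio (Order.succ (f r))))) ?_
      rintro ⟨⟨z, s⟩, h⟩ ⟨⟨z', s'⟩, h'⟩ heq
      simp only [Prod.mk.injEq, Subtype.mk.injEq] at heq
      obtain ⟨h2, h3⟩ := heq
      have h4 := hζinj h2
      subst h4
      have h5 := heinj z h3
      subst h5
      rfl
    have h2 : #{r' | f r' ≤ f r} ≤ (Order.succ (f r)).card * (Order.succ (f r)).card := by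
      rw [← Cardinal.lift_le.{u + 1}]
      rw [Cardinal.mk_prod, Cardinal.lift_id, Cardinal.mk_Iio_ordinal, ← Cardinal.lift_mul,
        Cardinal.lift_lift] at h1
      exact h1
    exact h2.trans_lt (Cardinal.mul_lt_of_lt hinf hc hc)
  have hNlarge : ∀ r : R, κ r.1.1 ≤ #(N r) := by
    intro r
    by_contra hcon
    rw [not_le] at hcon
    have hVo : IsOpen r.2.1.1 := ho _ r.2.1.2.1
    have h1 : κ r.1.1 ≤ #(Btw ℬ r.1.1 r.2.1.1) := hV₀min _ _ hVo r.2.1.2.2.1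
    have h2 : Btw ℬ r.1.1 r.2.1.1 ⊆ ⋃ ξ ∈ N r, D ξ := by
      intro W hW
      obtain ⟨ξ, hξ⟩ := hcover W hW.1
      simp only [mem_iUnion]
      exact ⟨ξ, ⟨W, hξ, hW⟩, hξ⟩
    have h3 : #(Btw ℬ r.1.1 r.2.1.1) ≤ max #(N r) ℵ₀ := by
      refine card_mono h2 (card_biUnion (le_max_right _ _) (le_max_left _ _) _ ?_)
      intro ξ _
      exact card_countable (le_max_right _ _) (hDc ξ)
    exact absurd (h1.trans h3) (not_le.2 (max_lt hcon (hκunc _ r.1.2)))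
  obtain ⟨w, hwinj, hw⟩ := select f N (fun r => (hcount r).trans_le (hNlarge r))
  choose Wd hWd1 hWd2 using hw
  let F : β → Set (Set X) := fun ξ => {W | ∃ r, w r = ξ ∧ W = Wd r}
  have hF : ∀ ξ, (F ξ).Subsingleton := by
    rintro ξ W ⟨r, h1, rfl⟩ W' ⟨r', h2, rfl⟩
    have := hwinj (h1.trans h2.symm)
    rw [this]
  have hblock : ∀ ξ, ∃ A : Set (Set X), A ⊆ D ξ \ F ξ ∧ ∀ y, ¬ IsOpen ({y} : Set X) →
      Loc (D ξ \ F ξ) y → Loc A y ∧ Loc ((D ξ \ F ξ) \ A) y := fun ξ =>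
    block (D ξ \ F ξ) ((hDc ξ).mono sdiff_subset) (fun V hV => ho V (hDb ξ hV.1))
  choose A hA1 hA2 using hblock
  let A' : Set (Set X) := (⋃ ξ, A ξ) ∪ {W | ∃ r : R, r.2.2.down = true ∧ W = Wd r}
  have hA'b : A' ⊆ ℬ := by
    rintro W (h | ⟨r, _, rfl⟩)
    · obtain ⟨ξ, hξ⟩ := mem_iUnion.1 h
      exact hDb ξ (hA1 ξ hξ).1
    · exact hDb _ (hWd1 r)
  refine ⟨A', hA'b, fun y => ?_⟩
  by_cases hyZ : y ∈ Z
  · have hreq : ∀ (c : Bool) (U : Set X), IsOpen U → y ∈ U →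
        ∃ r : R, r.2.2.down = c ∧ y ∈ Wd r ∧ Wd r ⊆ U := by
      intro c U hU hyU
      obtain ⟨V, hV, hyV, hVU⟩ := hloc y (U ∩ V₀ y) (hU.inter (hV₀o y)) ⟨hyU, hV₀y y⟩
      let r : R := ⟨⟨y, hyZ⟩, ⟨⟨V, hV, hyV, hVU.trans inter_subset_right⟩, ⟨c⟩⟩⟩
      exact ⟨r, rfl, (hWd2 r).2.1, (hWd2 r).2.2.trans (hVU.trans inter_subset_left)⟩
    constructor
    · intro U hU hyU
      obtain ⟨r, h1, h2, h3⟩ := hreq true U hU hyU
      exact ⟨Wd r, Or.inr ⟨r, h1, rfl⟩, h2, h3⟩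
    · intro U hU hyU
      obtain ⟨r, h1, h2, h3⟩ := hreq false U hU hyU
      refine ⟨Wd r, ⟨hDb _ (hWd1 r), ?_⟩, h2, h3⟩
      rintro (h | ⟨r', h4, h5⟩)
      · obtain ⟨η, hη⟩ := mem_iUnion.1 h
        have h5 := hdisj η _ _ (hA1 η hη).1 (hWd1 r)
        exact (hA1 η hη).2 ⟨r, h5.symm, rfl⟩
      · have h6 : Wd r ∈ D (w r') := by rw [h5]; exact hWd1 r'
        have h7 := hwinj (hdisj _ _ _ h6 (hWd1 r))
        rw [h7, h1] at h4
        simp at h4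
  · obtain ⟨ξ, h⟩ := hZ1 y hyZ
    have h1 : Loc (D ξ \ F ξ) y := h.sdiff (fun V hV => ho V (hDb ξ hV)) (hF ξ) (hiso y)
    obtain ⟨h2, h3⟩ := hA2 ξ y (hiso y) h1
    refine ⟨h2.mono fun W hW => Or.inl (mem_iUnion.2 ⟨ξ, hW⟩), h3.mono ?_⟩
    rintro W ⟨⟨hWD, hWF⟩, hWA⟩
    refine ⟨hDb ξ hWD, ?_⟩
    rintro (h | ⟨r, _, rfl⟩)
    · obtain ⟨η, hη⟩ := mem_iUnion.1 h
      have := hdisj ξ η W hWD (hA1 η hη).1
      subst this
      exact hWA hη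
    · have := hdisj ξ _ _ hWD (hWd1 r)
      exact hWF ⟨r, this.symm, rfl⟩

end Pool.Agent.H916R3.Base
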