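import Mathlib
import Pool.Agent.H916R3.Base.Card

/-!
# Decompositions of a base into countable pieces
-/

set_option autoImplicit false

namespace Pool.Agent.H916R3.Base

open Set TopologicalSpace Topology Cardinal

universe u

variable {X : Type u}

theorem typeA_blocks [TopologicalSpace X]
    (hs : ∀ Y : Set X, ∃ D, D ⊆ Y ∧ D.Countable ∧ Y ⊆ closure D)
    {ℬ : Set (Set X)} (ho : ∀ V ∈ ℬ, IsOpen V) (hloc : ∀ y, Loc ℬ y) :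
    ∃ (β : Type u) (D : β → Set (Set X)), (∀ ξ, (D ξ).Countable) ∧ (∀ ξ, D ξ ⊆ ℬ) ∧
      (∀ ξ η W, W ∈ D ξ → W ∈ D η → ξ = η) ∧ (∀ W ∈ ℬ, ∃ ξ, W ∈ D ξ) ∧
      ∀ y, (∃ V, IsOpen V ∧ y ∈ V ∧ (Btw ℬ y V).Countable) → ∃ ξ, Loc (D ξ) y := by
  classical
  let I : Type u := (#ℬ).ord.ToType
  obtain ⟨e⟩ : Nonempty (I ≃ ℬ) := Cardinal.eq.1 (Cardinal.mk_ord_toType _)
  have hcl : ∀ V : ℬ, ∃ B : Set (Set X), V.1 ∈ B ∧ B.Countable ∧ B ⊆ ℬ ∧ ∀ U ∈ B, Vs ℬ U ⊆ B := by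
    intro V
    obtain ⟨B, hB1, hB2, hB3⟩ := exists_closed (Vs ℬ) (fun V => Vs_countable hs ho V)
      {V.1} (countable_singleton _)
    refine ⟨B ∩ ℬ, ⟨hB1 rfl, V.2⟩, hB2.mono inter_subset_left, inter_subset_right, ?_⟩
    intro U hU W hW
    exact ⟨(hB3 U hU.1).1 hW, hW.1⟩
  choose S₁ hS1' hS2' hS3' hS4' using hcl
  let S : I → Set (Set X) := fun i => S₁ (e i)
  have hS1 : ∀ V : ℬ, V.1 ∈ S (e.symm V) := by
    intro V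
    simp only [S, Equiv.apply_symm_apply]
    exact hS1' V
  have hS2 : ∀ i, (S i).Countable := fun i => hS2' _
  have hS3 : ∀ i, S i ⊆ ℬ := fun i => hS3' _
  have hS4 : ∀ i, ∀ U ∈ S i, Vs ℬ U ⊆ S i := fun i => hS4' _
  let T : I → Set (Set X) := fun ξ => ⋃ η ∈ Set.Iio ξ, S η
  let D : I → Set (Set X) := fun ξ => S ξ \ T ξ
  have hTmem : ∀ ξ W, W ∈ T ξ ↔ ∃ η < ξ, W ∈ S η := by
    intro ξ W
    simp [T]
  have wf : WellFounded (fun a b : I => a < b) := IsWellFounded.wf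
  refine ⟨I, D, fun ξ => (hS2 ξ).mono sdiff_subset, fun ξ => sdiff_subset.trans (hS3 ξ), ?_, ?_, ?_⟩
  · intro ξ η W h1 h2
    rcases lt_trichotomy ξ η with h | h | h
    · exact absurd ((hTmem η W).2 ⟨ξ, h, h1.1⟩) h2.2
    · exact h
    · exact absurd ((hTmem ξ W).2 ⟨η, h, h2.1⟩) h1.2
  · intro W hW
    have hne' : {ξ | W ∈ S ξ}.Nonempty := ⟨e.symm ⟨W, hW⟩, hS1 ⟨W, hW⟩⟩
    have hmm : W ∈ S (wf.min {ξ | W ∈ S ξ} hne') := wf.min_mem {ξ | W ∈ S ξ} hne'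
    refine ⟨wf.min {ξ | W ∈ S ξ} hne', hmm, ?_⟩
    rw [hTmem]
    rintro ⟨η, hη, h⟩
    exact wf.not_lt_min {ξ | W ∈ S ξ} (x := η) h hη
  · have hmono : ∀ y V V', V' ⊆ V → (Btw ℬ y V).Countable → (Btw ℬ y V').Countable := by
      intro y V V' hVV h
      refine Set.Countable.mono ?_ h
      intro W hW
      exact ⟨hW.1, hW.2.1, hW.2.2.trans hVV⟩
    rintro y ⟨V₀, hV₀, hyV₀, hcV₀⟩
    obtain ⟨V₁, hV₁, hyV₁, hV₁V₀⟩ := hloc y V₀ hV₀ hyV₀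
    have hG₁ : y ∈ Gp ℬ V₁ := ⟨hyV₁, hmono _ _ _ hV₁V₀ hcV₀⟩
    have hne' : {ξ | ∃ V ∈ S ξ, y ∈ Gp ℬ V}.Nonempty := 
      ⟨e.symm ⟨V₁, hV₁⟩, V₁, hS1 ⟨V₁, hV₁⟩, hG₁⟩
    obtain ⟨V, hV, hyG⟩ := wf.min_mem {ξ | ∃ V ∈ S ξ, y ∈ Gp ℬ V} hne'
    refine ⟨wf.min {ξ | ∃ V ∈ S ξ, y ∈ Gp ℬ V} hne', ?_⟩
    intro U hU hyU
    obtain ⟨W, hW, hyW, hWU⟩ := hloc y (U ∩ V)
      (hU.inter (ho V (hS3 _ hV))) ⟨hyU, hyG.1⟩
    have hWV : W ⊆ V := hWU.trans inter_subset_right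
    refine ⟨W, ⟨hS4 _ V hV ⟨hW, hWV, y, hyW, hyG⟩, ?_⟩, hyW, hWU.trans inter_subset_left⟩
    rw [hTmem]
    rintro ⟨η, hη, hWη⟩
    have hyGW : y ∈ Gp ℬ W := ⟨hyW, hmono _ _ _ hWV hyG.2⟩
    have hmem : η ∈ {ξ | ∃ V ∈ S ξ, y ∈ Gp ℬ V} := ⟨W, hWη, hyGW⟩
    exact wf.not_lt_min {ξ | ∃ V ∈ S ξ, y ∈ Gp ℬ V} (x := η) hmem hη

theorem parts [TopologicalSpace X]
    (hs : ∀ Y : Set X, ∃ D, D ⊆ Y ∧ D.Countable ∧ Y ⊆ closure D) (n : ℕ) :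
    ∀ 𝒮 : Set (Set X), (∀ V ∈ 𝒮, IsOpen V) → #𝒮 ≤ Cardinal.aleph.{u} n →
    ∃ (β : Type u) (D : β → Set (Set X)), (∀ ξ, (D ξ).Countable) ∧ (∀ ξ, D ξ ⊆ 𝒮) ∧
      (∀ ξ η W, W ∈ D ξ → W ∈ D η → ξ = η) ∧ (∀ W ∈ 𝒮, ∃ ξ, W ∈ D ξ) ∧
      ∀ y, Loc 𝒮 y → ((∃ V, IsOpen V ∧ y ∈ V ∧ (Btw 𝒮 y V).Countable) ∨
        (𝓝 y).IsCountablyGenerated) → ∃ ξ, Loc (D ξ) y := by
  classical
  induction n with
  | zero =>
    intro 𝒮 ho hcard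
    have hc : 𝒮.Countable := by
      rw [← Cardinal.le_aleph0_iff_set_countable]
      simpa using hcard
    exact ⟨PUnit, fun _ => 𝒮, fun _ => hc, fun _ => subset_rfl, fun _ _ _ _ _ => rfl,
      fun W hW => ⟨PUnit.unit, hW⟩, fun y hy _ => ⟨PUnit.unit, hy⟩⟩
  | succ n ih =>
    intro 𝒮 ho hcard
    rcases 𝒮.eq_empty_or_nonempty with hemp | ⟨W₀, hW₀⟩
    · refine ⟨PEmpty, fun _ => ∅, fun ξ => ξ.elim, fun ξ => ξ.elim, fun ξ => ξ.elim, ?_, ?_⟩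
      · intro W hW
        rw [hemp] at hW
        exact absurd hW (notMem_empty _)
      · intro y hy _
        obtain ⟨W, hW, _⟩ := hy univ isOpen_univ (mem_univ y)
        rw [hemp] at hW
        exact absurd hW (notMem_empty _)
    have hne : Nonempty 𝒮 := ⟨⟨W₀, hW₀⟩⟩
    have hsucc : Cardinal.aleph.{u} ((n + 1 : ℕ) : Ordinal.{u}) =
        Order.succ (Cardinal.aleph.{u} n) := by
      rw [Cardinal.succ_aleph]
      congr 1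
    let κ : Cardinal.{u} := Cardinal.aleph.{u} n
    have hκ : ℵ₀ ≤ κ := Cardinal.aleph0_le_aleph _
    let I : Type u := (Cardinal.aleph.{u} ((n + 1 : ℕ) : Ordinal.{u})).ord.ToType
    have hI : #I = Order.succ κ := by rw [← hsucc]; exact Cardinal.mk_ord_toType _
    have hIio : ∀ a : I, #(Set.Iio a) ≤ κ := by
      intro a
      have h := Cardinal.mk_Iio_lt a (by simp [I])
      rw [hI] at h
      exact Order.lt_succ_iff.1 h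
    have hbdd : ∀ C : Set I, C.Countable → ∃ γ, ∀ c ∈ C, c < γ := by
      intro C hC
      by_contra h
      push Not at h
      have hsub : (Set.univ : Set I) ⊆ ⋃ c ∈ C, Set.Iic c := by
        intro γ _
        obtain ⟨c, hcC, hle⟩ := h γ
        simp only [mem_iUnion]
        exact ⟨c, hcC, hle⟩
      have h1 : #(Set.univ : Set I) ≤ κ := by
        refine card_mono hsub (card_biUnion hκ (card_countable hκ hC) _ fun c _ => ?_)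
        rw [← Set.Iio_union_right]
        exact card_union hκ (hIio c) (card_countable hκ (countable_singleton _))
      rw [Cardinal.mk_univ, hI] at h1
      exact absurd h1 (not_le.2 (Order.lt_succ κ))
    obtain ⟨g⟩ : #𝒮 ≤ #I := by rw [hI, ← hsucc]; exact hcard
    let b : I → Set X := fun ξ => (Function.invFun g ξ).1
    have hbI : ∀ ξ, b ξ ∈ 𝒮 := fun ξ => (Function.invFun g ξ).2
    have hbs : ∀ W ∈ 𝒮, ∃ ξ, b ξ = W := by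
      intro W hW
      refine ⟨g ⟨W, hW⟩, ?_⟩
      have := Function.leftInverse_invFun g.injective ⟨W, hW⟩
      simp only [b]
      rw [this]
    obtain ⟨S, hS⟩ := exists_chainK hκ hs ho hIio b hbI
    let T : I → Set (Set X) := fun ξ => ⋃ η ∈ Set.Iio ξ, S η
    let D₁ : I → Set (Set X) := fun ξ => S ξ \ T ξ
    have hTmem : ∀ ξ W, W ∈ T ξ ↔ ∃ η < ξ, W ∈ S η := by
      intro ξ W
      simp [T]
    have hDc : ∀ ξ, #(D₁ ξ) ≤ κ := fun ξ => card_mono sdiff_subset (hS ξ).1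
    have hDb : ∀ ξ, D₁ ξ ⊆ 𝒮 := fun ξ => sdiff_subset.trans (hS ξ).2.1
    have hDo : ∀ ξ, ∀ V ∈ D₁ ξ, IsOpen V := fun ξ V hV => ho V (hDb ξ hV)
    have hdisj : ∀ ξ η W, W ∈ D₁ ξ → W ∈ D₁ η → ξ = η := by
      intro ξ η W h1 h2
      rcases lt_trichotomy ξ η with h | h | h
      · exact absurd ((hTmem η W).2 ⟨ξ, h, h1.1⟩) h2.2
      · exact h
      · exact absurd ((hTmem ξ W).2 ⟨η, h, h2.1⟩) h1.2
    have wf : WellFounded (fun a b : I => a < b) := IsWellFounded.wf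
    have hcover : ∀ W ∈ 𝒮, ∃ ξ, W ∈ D₁ ξ := by
      intro W hW
      have hne' : {ξ | W ∈ S ξ}.Nonempty := by
        obtain ⟨ξ, hξ⟩ := hbs W hW
        exact ⟨ξ, by rw [mem_ofPred_eq, ← hξ]; exact (hS ξ).2.2.1⟩
      have hmm : W ∈ S (wf.min {ξ | W ∈ S ξ} hne') := wf.min_mem {ξ | W ∈ S ξ} hne'
      refine ⟨wf.min {ξ | W ∈ S ξ} hne', hmm, ?_⟩
      rw [hTmem]
      rintro ⟨η, hη, h⟩
      exact wf.not_lt_min {ξ | W ∈ S ξ} (x := η) h hη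
    have hmono : ∀ y V V', V' ⊆ V → #(Btw 𝒮 y V) ≤ κ → #(Btw 𝒮 y V') ≤ κ := by
      intro y V V' hVV h
      refine card_mono ?_ h
      intro W hW
      exact ⟨hW.1, hW.2.1, hW.2.2.trans hVV⟩
    have hA : ∀ y, Loc 𝒮 y → (∃ V, IsOpen V ∧ y ∈ V ∧ #(Btw 𝒮 y V) ≤ κ) →
        ∃ ξ, Loc (D₁ ξ) y := by
      rintro y hloc ⟨V₀, hV₀, hyV₀, hcV₀⟩
      obtain ⟨V₁, hV₁, hyV₁, hV₁V₀⟩ := hloc V₀ hV₀ hyV₀
      have hG₁ : y ∈ GpK κ 𝒮 V₁ := ⟨hyV₁, hmono _ _ _ hV₁V₀ hcV₀⟩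
      have hne' : {ξ | ∃ V ∈ S ξ, y ∈ GpK κ 𝒮 V}.Nonempty := by
        obtain ⟨ξ, hξ⟩ := hcover V₁ hV₁
        exact ⟨ξ, V₁, hξ.1, hG₁⟩
      obtain ⟨V, hV, hyG⟩ := wf.min_mem {ξ | ∃ V ∈ S ξ, y ∈ GpK κ 𝒮 V} hne'
      refine ⟨wf.min {ξ | ∃ V ∈ S ξ, y ∈ GpK κ 𝒮 V} hne', ?_⟩
      intro U hU hyU
      obtain ⟨W, hW, hyW, hWU⟩ := hloc (U ∩ V)
        (hU.inter (ho V ((hS _).2.1 hV))) ⟨hyU, hyG.1⟩
      have hWV : W ⊆ V := hWU.trans inter_subset_right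
      refine ⟨W, ⟨(hS _).2.2.2.1 V hV ⟨hW, hWV, y, hyW, hyG⟩, ?_⟩, hyW,
        hWU.trans inter_subset_left⟩
      rw [hTmem]
      rintro ⟨η, hη, hWη⟩
      have hyGW : y ∈ GpK κ 𝒮 W := ⟨hyW, hmono _ _ _ hWV hyG.2⟩
      have hmem : η ∈ {ξ | ∃ V ∈ S ξ, y ∈ GpK κ 𝒮 V} := ⟨W, hWη, hyGW⟩
      exact wf.not_lt_min {ξ | ∃ V ∈ S ξ, y ∈ GpK κ 𝒮 V} (x := η) hmem hη
    have hB : ∀ y, Loc 𝒮 y → (∀ V, IsOpen V → y ∈ V → ¬ #(Btw 𝒮 y V) ≤ κ) →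
        (𝓝 y).IsCountablyGenerated → ∃ ξ, Loc (D₁ ξ) y := by
      intro y hloc hy hcg
      obtain ⟨N, hN⟩ := (𝓝 y).exists_antitone_basis
      have hex : ∀ n : ℕ, ∃ W ∈ 𝒮, y ∈ W ∧ W ⊆ N n := by
        intro n
        have h1 : N n ∈ 𝓝 y := hN.toHasBasis.mem_of_mem trivial
        obtain ⟨O, hO, hOo, hyO⟩ := mem_nhds_iff.1 h1
        obtain ⟨W, hW, hyW, hWO⟩ := hloc O hOo hyO
        exact ⟨W, hW, hyW, hWO.trans hO⟩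
      choose W hW hyW hWN using hex
      have hex2 : ∀ n : ℕ, ∃ ξ, W n ∈ D₁ ξ := fun n => hcover _ (hW n)
      choose ξ hξ using hex2
      obtain ⟨γ, hγ⟩ := hbdd _ (countable_range ξ)
      refine ⟨γ, (hS γ).2.2.2.2 y hy ?_⟩
      intro U hU hyU
      obtain ⟨n, _, hn⟩ := hN.toHasBasis.mem_iff.1 (hU.mem_nhds hyU)
      refine ⟨W n, ?_, hyW n, (hWN n).trans hn⟩
      exact (hTmem γ (W n)).2 ⟨ξ n, hγ _ ⟨n, rfl⟩, (hξ n).1⟩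
    choose β D h1 h2 h3 h4 h5 using fun ξ => ih (D₁ ξ) (hDo ξ) (hDc ξ)
    refine ⟨Σ ξ, β ξ, fun p => D p.1 p.2, fun p => h1 p.1 p.2,
      fun p => (h2 p.1 p.2).trans (hDb p.1), ?_, ?_, ?_⟩
    · rintro ⟨ξ, p⟩ ⟨η, q⟩ W hp hq
      have hξη := hdisj ξ η W (h2 ξ p hp) (h2 η q hq)
      subst hξη
      have := h3 ξ p q W hp hq
      rw [this]
    · intro W hW
      obtain ⟨ξ, hξ⟩ := hcover W hW
      obtain ⟨p, hp⟩ := h4 ξ W hξ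
      exact ⟨⟨ξ, p⟩, hp⟩
    · intro y hloc hcase
      have hξ : ∃ ξ, Loc (D₁ ξ) y := by
        by_cases htype : ∃ V, IsOpen V ∧ y ∈ V ∧ #(Btw 𝒮 y V) ≤ κ
        · exact hA y hloc htype
        · push Not at htype
          rcases hcase with ⟨V, hV, hyV, hc⟩ | hcg
          · exact absurd (card_countable hκ hc) (not_le.2 (htype V hV hyV))
          · exact hB y hloc (fun V hV hyV => not_le.2 (htype V hV hyV)) hcg
      obtain ⟨ξ, hξ⟩ := hξ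
      have hcase' : (∃ V, IsOpen V ∧ y ∈ V ∧ (Btw (D₁ ξ) y V).Countable) ∨
          (𝓝 y).IsCountablyGenerated := by
        rcases hcase with ⟨V, hV, hyV, hc⟩ | hcg
        · left
          refine ⟨V, hV, hyV, Set.Countable.mono ?_ hc⟩
          intro W hW
          exact ⟨hDb ξ hW.1, hW.2.1, hW.2.2⟩
        · exact Or.inr hcg
      obtain ⟨p, hp⟩ := h5 ξ y hξ hcase'
      exact ⟨⟨ξ, p⟩, hp⟩

end Pool.Agent.H916R3.Base
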